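import Pool.Agent.N889.AO.Stm

/-!
# Project AO (helper889), part LIN (helper216): powers of a pure root of a primitive root
-/

set_option autoImplicit false

namespace Pool.Agent.N216.AO

open Pool.Agent.N889.AO

theorem stmLin : StmLin := by
  intro p L _ hL hLp
  obtain ⟨u, hu⟩ := IsCyclic.exists_generator (α := (ZMod p)ˣ)
  have hou : orderOf u = p - 1 := by
    rw [orderOf_eq_card_of_forall_mem_zpowers hu, Nat.card_eq_fintype_card, ZMod.card_units]
  have hp1 : 0 < p - 1 := Nat.sub_pos_of_lt (Fact.out : p.Prime).one_lt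
  obtain ⟨m, hm⟩ := hLp
  have hm0 : m ≠ 0 := by
    rintro rfl
    omega
  have hoz : orderOf (u ^ m) = L := by
    rw [orderOf_pow_of_dvd hm0 (by rw [hou, hm]; exact dvd_mul_left m L), hou, hm,
      Nat.mul_div_cancel _ (Nat.pos_of_ne_zero hm0)]
  refine ⟨u, u.ne_zero, fun K _ _ γ hγ => ?_⟩
  have hγ0 : γ ≠ 0 := by
    rintro rfl
    rw [zero_pow hL.ne', eq_comm, map_eq_zero] at hγ
    exact u.ne_zero hγ
  have hω : γ ^ (p - 1) = algebraMap (ZMod p) K ((u ^ m : (ZMod p)ˣ) : ZMod p) := by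
    rw [hm, pow_mul, hγ, Units.val_pow_eq_pow_val, map_pow]
  refine Module.End.eigenvectors_linearIndependent'
    (FiniteField.frobeniusAlgHom (ZMod p) K).toLinearMap
    (fun k : Fin L => (((u ^ m) ^ (k : ℕ) : (ZMod p)ˣ) : ZMod p)) ?_ _ ?_
  · intro k k' h
    have h1 := Units.ext h
    have h2 := pow_injOn_Iio_orderOf (x := u ^ m) (by rw [hoz]; exact k.2) (by rw [hoz]; exact k'.2) h1
    exact Fin.ext h2
  · intro k
    refine ⟨?_, pow_ne_zero _ hγ0⟩
    rw [Module.End.mem_eigenspace_iff]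
    change (γ ^ (k : ℕ)) ^ (Fintype.card (ZMod p)) = _
    rw [ZMod.card, Units.val_pow_eq_pow_val, Algebra.smul_def, map_pow, ← hω]
    have h3 : p = (p - 1) + 1 := by omega
    conv_lhs => rw [h3]
    rw [pow_succ, ← pow_mul, ← pow_mul, mul_comm (k : ℕ) (p - 1)]

end Pool.Agent.N216.AO
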